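import Mathlib

set_option autoImplicit false

/-!
# A countably categorical Jordan nil ring that is not solvable

The ring is the vector space of dimension three over the field with two elements with the cross
product. It is commutative, the square of every element is zero, and it is simple, so its derived
series is constant.
-/

namespace Pool.Agent.Results.MP_bd8d3e_al.JordanSimple

/-- the vectors of length three over the field with two elements -/
def J8 : Type := ZMod 2 × ZMod 2 × ZMod 2

instance : AddCommGroup J8 := inferInstanceAs (AddCommGroup (ZMod 2 × ZMod 2 × ZMod 2))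
instance : DecidableEq J8 := inferInstanceAs (DecidableEq (ZMod 2 × ZMod 2 × ZMod 2))
instance : Fintype J8 := inferInstanceAs (Fintype (ZMod 2 × ZMod 2 × ZMod 2))

/-- the cross product -/
instance : Mul J8 := ⟨fun x y =>
  (x.2.1 * y.2.2 - x.2.2 * y.2.1, x.2.2 * y.1 - x.1 * y.2.2, x.1 * y.2.1 - x.2.1 * y.1)⟩

theorem mul_1 (x y : J8) : (x * y).1 = x.2.1 * y.2.2 - x.2.2 * y.2.1 := rfl
theorem mul_2 (x y : J8) : (x * y).2.1 = x.2.2 * y.1 - x.1 * y.2.2 := rfl
theorem mul_3 (x y : J8) : (x * y).2.2 = x.1 * y.2.1 - x.2.1 * y.1 := rfl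

theorem ext' {x y : J8} (h1 : x.1 = y.1) (h2 : x.2.1 = y.2.1) (h3 : x.2.2 = y.2.2) : x = y :=
  Prod.ext h1 (Prod.ext h2 h3)

theorem add_1 (x y : J8) : (x + y).1 = x.1 + y.1 := rfl
theorem add_2 (x y : J8) : (x + y).2.1 = x.2.1 + y.2.1 := rfl
theorem add_3 (x y : J8) : (x + y).2.2 = x.2.2 + y.2.2 := rfl

instance : NonUnitalNonAssocRing J8 :=
  { (inferInstance : AddCommGroup J8), (inferInstance : Mul J8) with
    left_distrib := fun a b c => by
      refine ext' ?_ ?_ ?_ <;> simp only [mul_1, mul_2, mul_3, add_1, add_2, add_3] <;> ring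
    right_distrib := fun a b c => by
      refine ext' ?_ ?_ ?_ <;> simp only [mul_1, mul_2, mul_3, add_1, add_2, add_3] <;> ring
    zero_mul := fun a => by
      change ((0 * a.2.2 - 0 * a.2.1, 0 * a.1 - 0 * a.2.2, 0 * a.2.1 - 0 * a.1) :
        ZMod 2 × ZMod 2 × ZMod 2) = (0, 0, 0)
      simp
    mul_zero := fun a => by
      change ((a.2.1 * 0 - a.2.2 * 0, a.2.2 * 0 - a.1 * 0, a.1 * 0 - a.2.1 * 0) :
        ZMod 2 × ZMod 2 × ZMod 2) = (0, 0, 0)
      simp }

theorem comm (x y : J8) : x * y = y * x := by
  revert x y; decide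

theorem sq (x : J8) : x * x = 0 := by
  revert x; decide

/-- every vector is a sum of products -/
theorem mem_of_products (G : AddSubgroup J8) (h : ∀ u v : J8, u * v ∈ G) : G = ⊤ := by
  rw [eq_top_iff]
  intro x _
  have h1 : ∀ x : J8, ∃ a b : J8, a * b = x := by decide
  obtain ⟨a, b, rfl⟩ := h1 x
  exact h a b

open FirstOrder FirstOrder.Language in
theorem categorical_of_finite (L : FirstOrder.Language.{0, 0}) (A : Type) (S : L.Structure A) [Finite A]
    [Nonempty A] :
    Cardinal.Categorical Cardinal.aleph0.{0} (@completeTheory L A S) := by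
  intro M N hM _
  exfalso
  have : Fintype A := Fintype.ofFinite A
  let φ : L.Sentence := (Sentence.cardGe L (Fintype.card A + 1)).not
  have h1 : A ⊨ φ := by
    change ¬ (A ⊨ Sentence.cardGe L (Fintype.card A + 1))
    rw [Sentence.realize_cardGe, Cardinal.mk_fintype]
    intro h
    have : Fintype.card A + 1 ≤ Fintype.card A := by exact_mod_cast h
    omega
  have h2 : M ⊨ φ := M.is_model.realize_of_mem φ h1
  have h3 : ¬ (M ⊨ Sentence.cardGe L (Fintype.card A + 1)) := h2
  rw [Sentence.realize_cardGe, hM] at h3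
  exact h3 (Cardinal.natCast_lt_aleph0).le

/-- **Theorem.** There is a finite (hence countably categorical) Jordan nil ring with eight elements
all of whose derived powers are equal to the ring. -/
theorem result :
    ∃ (A : Type) (_ : NonUnitalNonAssocRing A)
      (S : (FirstOrder.Language.mk
              (fun n : ℕ => Fin (if n = 2 then 2 else if n ≤ 1 then 1 else 0))
              (fun _ : ℕ => Empty)).Structure A),
      Nat.card A = 8 ∧
      S = { funMap := fun {n} i x =>
              if n = 2 ∧ Fin.val i = 1 then (List.ofFn x).headD 0 * (List.ofFn x).getLastD 0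
              else if n = 1 then -(∑ j, x j) else ∑ j, x j,
            RelMap := fun {n} r _ => Empty.elim r } ∧
      (∀ x y : A, x * y = y * x ∧ ((x * x) * y) * x = (x * x) * (y * x)) ∧
      (∀ x : A, ∃ n : ℕ, (fun y => y * x)^[n] x = 0) ∧
      Cardinal.Categorical Cardinal.aleph0.{0}
        (FirstOrder.Language.completeTheory
          (FirstOrder.Language.mk
              (fun n : ℕ => Fin (if n = 2 then 2 else if n ≤ 1 then 1 else 0))
              (fun _ : ℕ => Empty)) A) ∧
      ∀ D : ℕ → AddSubgroup A, D 0 = ⊤ →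
        (∀ k : ℕ, D (k + 1) = AddSubgroup.closure {z : A | ∃ u ∈ D k, ∃ v ∈ D k, u * v = z}) →
        ∀ k : ℕ, D k = ⊤ ∧ D k ≠ ⊥ := by
  refine ⟨J8, inferInstance, _, ?_, rfl, fun x y => ⟨comm x y, ?_⟩, fun x => ⟨1, ?_⟩, ?_, 
    fun D h0 hD k => ?_⟩
  · rw [Nat.card_eq_fintype_card]; decide
  · rw [sq, zero_mul, zero_mul, zero_mul]
  · simpa using sq x
  · exact categorical_of_finite _ J8 _
  · have h1 : D k = ⊤ := by
      induction k with
      | zero => exact h0
      | succ k ih =>
        apply mem_of_products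
        intro u v
        rw [hD k, ih]
        exact AddSubgroup.subset_closure ⟨u, AddSubgroup.mem_top u, v, AddSubgroup.mem_top v, rfl⟩
    refine ⟨h1, ?_⟩
    rw [h1]
    intro h2
    obtain ⟨x, hx⟩ : ∃ x : J8, x ≠ 0 := by decide
    have h3 : x ∈ (⊤ : AddSubgroup J8) := AddSubgroup.mem_top _
    rw [h2, AddSubgroup.mem_bot] at h3
    exact hx h3

end Pool.Agent.Results.MP_bd8d3e_al.JordanSimple
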